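import Pool.Agent.helper90.KS.Spec

/-!
# MP_26dbae_co: module RA (Ramsey's theorem for two colours)
-/

set_option autoImplicit false

open scoped BigOperators

namespace Pool.Agent.KS

open Pool.Agent.helper23.TH

noncomputable section

open Classical

/-- the statement for given `a`, `b`, `R` -/
def RA_P (a b R : ℕ) : Prop := ∀ (V : Type) (Q : Finset V) (g : V → V → Prop),
  (∀ x y, g x y → g y x) → R ≤ Q.card →
  (∃ f : Fin a → V, Function.Injective f ∧ (∀ i, f i ∈ Q) ∧ ∀ i j, i ≠ j → g (f i) (f j)) ∨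
  ∃ f : Fin b → V, Function.Injective f ∧ (∀ i, f i ∈ Q) ∧ ∀ i j, i ≠ j → ¬ g (f i) (f j)

theorem RA_zero_left (b : ℕ) : RA_P 0 b 0 := fun _ _ _ _ _ =>
  Or.inl ⟨Fin.elim0, fun i => i.elim0, fun i => i.elim0, fun i => i.elim0⟩

theorem RA_zero_right (a : ℕ) : RA_P a 0 0 := fun _ _ _ _ _ =>
  Or.inr ⟨Fin.elim0, fun i => i.elim0, fun i => i.elim0, fun i => i.elim0⟩

/-- adding a vertex -/
theorem RA_cons {V : Type} {n : ℕ} {Q Q' : Finset V} {x : V} (g : V → V → Prop)
    (hg : ∀ x y, g x y → g y x) (hx : x ∈ Q) (hQ : Q' ⊆ Q) (hxQ : x ∉ Q')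
    (hQg : ∀ y ∈ Q', g x y) (f : Fin n → V) (hf : Function.Injective f) (hfQ : ∀ i, f i ∈ Q')
    (hfg : ∀ i j, i ≠ j → g (f i) (f j)) :
    ∃ f : Fin (n + 1) → V, Function.Injective f ∧ (∀ i, f i ∈ Q) ∧
      ∀ i j, i ≠ j → g (f i) (f j) := by
  refine ⟨Fin.cons x f, ?_, ?_, ?_⟩
  · rw [Fin.cons_injective_iff]
    refine ⟨?_, hf⟩
    rintro ⟨i, hi⟩
    exact hxQ (hi ▸ hfQ i)
  · intro i
    refine Fin.cases ?_ (fun i => ?_) i
    · simpa using hx
    · simpa using hQ (hfQ i)
  · intro i j
    refine Fin.cases ?_ (fun i => ?_) i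
    · refine Fin.cases ?_ (fun j => ?_) j
      · intro h; exact absurd rfl h
      · intro _
        simpa using hQg _ (hfQ j)
    · refine Fin.cases ?_ (fun j => ?_) j
      · intro _
        simpa using hg _ _ (hQg _ (hfQ i))
      · intro h
        have : i ≠ j := fun e => h (by rw [e])
        simpa using hfg i j this

theorem RA_step (a b R S : ℕ) (h1 : RA_P a (b + 1) R) (h2 : RA_P (a + 1) b S) :
    RA_P (a + 1) (b + 1) (R + S + 1) := by
  intro V Q g hg hQ
  have hne : Q.Nonempty := by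
    rw [← Finset.card_pos]
    omega
  obtain ⟨x, hx⟩ := hne
  have hcard : (Q.erase x).card = Q.card - 1 := Finset.card_erase_of_mem hx
  have hsum := Finset.card_filter_add_card_filter_not (s := Q.erase x) (fun y => g x y)
  have hcase : R ≤ ((Q.erase x).filter fun y => g x y).card ∨
      S ≤ ((Q.erase x).filter fun y => ¬ g x y).card := by
    by_contra hcon
    push Not at hcon
    omega
  rcases hcase with hc | hc
  · rcases h1 V _ g hg hc with ⟨f, hf1, hf2, hf3⟩ | ⟨f, hf1, hf2, hf3⟩
    · left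
      exact RA_cons g hg hx ((Finset.filter_subset _ _).trans (Finset.erase_subset _ _))
        (fun h => by simp at h) (fun y hy => (Finset.mem_filter.mp hy).2) f hf1 hf2 hf3
    · right
      exact ⟨f, hf1, fun i => Finset.mem_of_mem_erase (Finset.mem_filter.mp (hf2 i)).1, hf3⟩
  · rcases h2 V _ g hg hc with ⟨f, hf1, hf2, hf3⟩ | ⟨f, hf1, hf2, hf3⟩
    · left
      exact ⟨f, hf1, fun i => Finset.mem_of_mem_erase (Finset.mem_filter.mp (hf2 i)).1, hf3⟩
    · right
      exact RA_cons (fun u v => ¬ g u v) (fun u v h h' => h (hg _ _ h')) hx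
        ((Finset.filter_subset _ _).trans (Finset.erase_subset _ _))
        (fun h => by simp at h) (fun y hy => (Finset.mem_filter.mp hy).2) f hf1 hf2 hf3

theorem RA : RA_stmt := by
  have key : ∀ n a b : ℕ, a + b = n → ∃ R, RA_P a b R := by
    intro n
    induction n with
    | zero =>
      intro a b h
      have : a = 0 := by omega
      subst this
      exact ⟨0, RA_zero_left b⟩
    | succ n ih =>
      intro a b h
      rcases a with _ | a
      · exact ⟨0, RA_zero_left b⟩
      · rcases b with _ | b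
        · exact ⟨0, RA_zero_right _⟩
        · obtain ⟨R, hR⟩ := ih a (b + 1) (by omega)
          obtain ⟨S, hS⟩ := ih (a + 1) b (by omega)
          exact ⟨R + S + 1, RA_step a b R S hR hS⟩
  intro a b
  exact key (a + b) a b rfl

end

end Pool.Agent.KS
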